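import Pool.Agent.Helper79.TL.Core

/-! TL-B4: in an irreducible representation every nonzero vector of `Vl` generates `Vl`. -/

set_option autoImplicit false
set_option linter.unusedSectionVars false

open Module

namespace Pool.Agent.Helper79.TL.B4

open GPre

variable {K : Type} [Field K] {G : Type} [Group G] {D : GPre G} {V : Type} [AddCommGroup V]
  [Module K V] (ρ : Representation K G V) (hD : D.Good)

include hD

theorem rho_pow (g : G) (k : ℕ) (v : V) : ρ (g ^ k) v = ((ρ g) ^ k) v := by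
  rw [map_pow]

theorem tM_pow_coe (k : ℕ) (v : ↥(D.Vl ρ)) :
    (((tM ρ hD ^ k) v : ↥(D.Vl ρ)) : V) = ρ (D.t ^ k) v := by
  induction k with
  | zero => simp
  | succ k ih => rw [pow_succ', Module.End.mul_apply, tM_coe, ih, pow_succ', rho_mul]

theorem sM_pow_coe (k : ℕ) (v : ↥(D.Vl ρ)) :
    (((sM ρ hD ^ k) v : ↥(D.Vl ρ)) : V) = ρ (D.s ^ k) v := by
  induction k with
  | zero => simp
  | succ k ih => rw [pow_succ', Module.End.mul_apply, sM_coe, ih, pow_succ', rho_mul]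

theorem t_pow_E (k : ℕ) (v : V) : ρ (D.t ^ k) (D.E ρ v) = D.E ρ (ρ (D.t ^ k) v) := by
  induction k with
  | zero => simp
  | succ k ih => rw [pow_succ', rho_mul, ih, t_E ρ hD, rho_mul]

theorem z_pow {v : V} (hv : ρ D.z v = -v) (ε : ℕ) : ρ (D.z ^ ε) v = ((-1 : K) ^ ε) • v := by
  induction ε with
  | zero => simp
  | succ ε ih =>
    rw [pow_succ', rho_mul, ih, map_smul, hv, pow_succ', smul_neg, ← neg_smul]
    ring_nf

theorem t_s (k : ℕ) : D.t ^ k * D.s = D.s * D.t ^ (4 * k) := by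
  have h1 : ∀ n : ℕ, D.s * D.t ^ n = D.t ^ (4 * n) * D.s := by
    intro n
    induction n with
    | zero => simp
    | succ n ih =>
      rw [pow_succ, ← mul_assoc, ih, mul_assoc, hD.s_t, ← mul_assoc, ← pow_add]
      rfl
  rw [h1]
  congr 1
  rw [show 4 * (4 * k) = k + 5 * (3 * k) by ring, pow_add, pow_mul, hD.t_pow, one_pow, mul_one]

theorem t_s_M (k : ℕ) : tM ρ hD ^ k * sM ρ hD = sM ρ hD * tM ρ hD ^ (4 * k) := by
  refine LinearMap.ext fun v => Subtype.ext ?_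
  rw [Module.End.mul_apply, Module.End.mul_apply, tM_pow_coe, sM_coe, sM_coe, tM_pow_coe,
    ← rho_mul, ← rho_mul, t_s hD]

theorem Y_s_M (j : Fin 3) : ∃ c : K, YM ρ hD j * sM ρ hD = c • YM ρ hD j := by
  obtain ⟨a, b, h⟩ := hD.x_s j
  refine ⟨(-1) ^ (if j = 2 then 1 else 0), LinearMap.ext fun v => Subtype.ext ?_⟩
  have hz : ρ D.z (ρ (D.x j) (v : V)) = - ρ (D.x j) (v : V) := by
    rw [← rho_mul, hD.z_comm, rho_mul, v.2.2, map_neg]
  rw [Module.End.mul_apply, YM_coe, sM_coe, ← rho_mul, h]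
  simp only [pow_zero, mul_one]
  rw [LinearMap.smul_apply, Submodule.coe_smul, YM_coe, rho_mul, v.2.1, rho_mul, rho_mul,
    ← map_smul, ← z_pow ρ hD hz]
  have hzr : ∀ (ε : ℕ) (w : V), ρ (D.z ^ ε) (ρ (D.r a) w) = ρ (D.r a) (ρ (D.z ^ ε) w) := by
    intro ε w
    rw [← rho_mul, ← rho_mul]
    congr 2
    induction ε with
    | zero => simp
    | succ ε ih => rw [pow_succ, mul_assoc, hD.z_comm, ← mul_assoc, ih, mul_assoc]
  rw [hzr, E_r ρ hD]

theorem E_O (h2 : (2 : K) ≠ 0) {g : G} (hg : D.Is g .O) (v : ↥(D.Vl ρ)) :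
    D.E ρ (ρ g v) = 0 := by
  obtain ⟨a, b, h⟩ := hg
  have h1 : D.E ρ (ρ g v) = - D.E ρ (ρ g v) := by
    conv_lhs => rw [← E_r ρ hD a, ← rho_mul, h, rho_mul, rho_mul, v.2.1, v.2.2, map_neg, map_neg]
  have h3 : (2 : K) • D.E ρ (ρ g v) = 0 := by
    rw [two_smul]
    nth_rewrite 1 [h1]
    rw [neg_add_cancel]
  exact (smul_eq_zero.mp h3).resolve_left h2

theorem hel_apply (p : HI) (u : ↥(D.Vl ρ)) : ∃ c : K,
    ρ (D.hel p) u = c • (((tM ρ hD ^ (p.2.2.1 : ℕ) * sM ρ hD ^ (p.2.2.2 : ℕ)) u : ↥(D.Vl ρ)) : V)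
      := by
  refine ⟨(-1) ^ (p.1 : ℕ), ?_⟩
  set v := (tM ρ hD ^ (p.2.2.1 : ℕ) * sM ρ hD ^ (p.2.2.2 : ℕ)) u with hv
  have h1 : (v : V) = ρ (D.t ^ (p.2.2.1 : ℕ)) (ρ (D.s ^ (p.2.2.2 : ℕ)) u) := by
    rw [hv, Module.End.mul_apply, tM_pow_coe, sM_pow_coe]
  rw [hel, rho_mul, rho_mul, ← h1, rho_mul, v.2.1, z_pow ρ hD v.2.2]

/-- TL-B4 -/
theorem gen_of_irreducible [hρ : ρ.IsIrreducible] (h2 : (2 : K) ≠ 0) (u : ↥(D.Vl ρ)) (hu : u ≠ 0) :
    Gen (tM ρ hD) (sM ρ hD) (YM ρ hD) u := by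
  intro N hN1 hN2
  -- the vectors `ρ g u` span
  have hW : Submodule.span K (Set.range fun g => ρ g (u : V)) = ⊤ := by
    let S : Subrepresentation ρ := ⟨Submodule.span K (Set.range fun g => ρ g (u : V)), by
      intro g v hv
      induction hv using Submodule.span_induction with
      | mem x hx =>
        obtain ⟨h, rfl⟩ := hx
        refine Submodule.subset_span ⟨g * h, ?_⟩
        exact rho_mul ρ g h _
      | zero => rw [map_zero]; exact Submodule.zero_mem _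
      | add x y _ _ hx hy => rw [map_add]; exact Submodule.add_mem _ hx hy
      | smul a x _ hx => rw [map_smul]; exact Submodule.smul_mem _ _ hx⟩
    rcases hρ.eq_bot_or_eq_top S with h | h
    · exfalso
      have h1 : (u : V) ∈ S.toSubmodule := Submodule.subset_span ⟨1, by simp⟩
      rw [h] at h1
      have h3 : (u : V) = 0 := h1
      exact hu (Subtype.ext h3)
    · have h1 : S.toSubmodule = (⊤ : Subrepresentation ρ).toSubmodule := by rw [h]
      exact h1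
  -- the images of generators
  have gen : ∀ g : G, D.E ρ (ρ g (u : V)) ∈ N.map (D.Vl ρ).subtype := by
    intro g
    obtain ⟨⟨b, p⟩, rfl⟩ := hD.bij.2 g
    obtain ⟨c, hc⟩ := hel_apply ρ hD p u
    simp only
    rw [rho_mul, hc, map_smul, map_smul]
    refine Submodule.smul_mem _ _ ?_
    rcases b with (_ | k) | ⟨j, k, i⟩
    · change D.E ρ (ρ 1 _) ∈ _
      rw [map_one, Module.End.one_apply,
        E_of_mem ρ hD ((tM ρ hD ^ (p.2.2.1 : ℕ) * sM ρ hD ^ (p.2.2.2 : ℕ)) u).2]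
      exact Submodule.smul_mem _ _ ⟨_, hN1 _ _, rfl⟩
    · change D.E ρ (ρ (D.t ^ (k : ℕ) * D.w) _) ∈ _
      rw [E_O ρ hD h2 (hD.w_O k)]
      exact Submodule.zero_mem _
    · change D.E ρ (ρ (D.t ^ (k : ℕ) * (D.r (cc j i) * D.x j)) _) ∈ _
      rw [rho_mul, ← t_pow_E ρ hD, rho_mul, E_r ρ hD, ← YM_coe ρ hD, ← tM_pow_coe ρ hD,
        ← Module.End.mul_apply, ← Module.End.mul_apply]
      refine ⟨_, ?_, rfl⟩
      have he : (p.2.2.2 : ℕ) = 0 ∨ (p.2.2.2 : ℕ) = 1 := by omega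
      rcases he with he | he
      · rw [he, pow_zero, mul_one]
        exact hN2 _ _ _
      · rw [he, pow_one, t_s_M ρ hD]
        obtain ⟨c', hc'⟩ := Y_s_M ρ hD j
        have h4 : tM ρ hD ^ (k : ℕ) * YM ρ hD j * (sM ρ hD * tM ρ hD ^ (4 * (p.2.2.1 : ℕ))) =
            c' • (tM ρ hD ^ (k : ℕ) * YM ρ hD j * tM ρ hD ^ (4 * (p.2.2.1 : ℕ))) := by
          rw [mul_assoc, ← mul_assoc (YM ρ hD j), hc', smul_mul_assoc, mul_smul_comm, mul_assoc]
        rw [h4]
        exact Submodule.smul_mem _ _ (hN2 _ _ _)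
  have all : ∀ v : V, D.E ρ v ∈ N.map (D.Vl ρ).subtype := by
    intro v
    have hv : v ∈ Submodule.span K (Set.range fun g => ρ g (u : V)) := by rw [hW]; trivial
    induction hv using Submodule.span_induction with
    | mem x hx =>
      obtain ⟨h, rfl⟩ := hx
      exact gen h
    | zero => rw [map_zero]; exact Submodule.zero_mem _
    | add x y _ _ hx hy => rw [map_add]; exact Submodule.add_mem _ hx hy
    | smul a x _ hx => rw [map_smul]; exact Submodule.smul_mem _ _ hx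
  rw [eq_top_iff]
  intro m _
  have h1 := all m
  rw [E_of_mem ρ hD m.2] at h1
  have h16 : (16 : K) ≠ 0 := by
    have : (16 : K) = 2 ^ 4 := by norm_num
    rw [this]
    exact pow_ne_zero _ h2
  have h3 := Submodule.smul_mem _ (16 : K)⁻¹ h1
  rw [smul_smul, inv_mul_cancel₀ h16, one_smul] at h3
  obtain ⟨n, hn, hnm⟩ := h3
  have : n = m := Subtype.ext hnm
  rwa [← this]

end Pool.Agent.Helper79.TL.B4
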